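import Pool.Agent.Run7.h696.CP.Iface
import Pool.Agent.Run7.h704.HP.IND

/-!
# Project CP (helper696), piece INDH (helper379)

The hyperlogarithms with arbitrary integral letters are linearly independent over a differential field generated by power
series, if no nontrivial combination of the logarithms is in this field.
-/

set_option autoImplicit false
set_option linter.all false

open PowerSeries
open Pool.Agent.Y119.ML
open Pool.Agent.W924.LF (eul coeff_eul)

namespace Pool.Agent.Run7.h379.CP

open Pool.Agent.Run7.h704.HP (coeff_theta E E_apply E_C E_X Kh mem_Kh E_mem pio_mem' eul_Kh const_eq)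
open Pool.Agent.Run7.h696.CP (co hy Wd NoLogs S_INDH)

attribute [-instance] HahnSeries.powerSeriesAlgebra

/-! ### The derivatives of the hyperlogarithms -/

variable {m : ℕ} (a : Fin m → ℤ)

theorem coeff_hy (w : List (Option (Fin m))) (k : ℕ) : coeff k (hy a w) = co a w k := by
  unfold hy
  rw [coeff_mk]

theorem hy_nil : hy a [] = 1 := by
  ext k
  rw [coeff_hy, coeff_one]
  rfl

theorem co_zero (w : List (Option (Fin m))) (hw : w ≠ []) : co a w 0 = 0 := by
  rcases w with _ | ⟨o, w⟩
  · exact absurd rfl hw
  · rcases o with _ | i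
    · show co a w 0 / ((0 : ℕ) : ℚ) = 0
      rw [Nat.cast_zero, div_zero]
    · show (∑ l ∈ Finset.range 0, (a i : ℚ) ^ (0 - 1 - l) * co a w l) / ((0 : ℕ) : ℚ) = 0
      rw [Nat.cast_zero, div_zero]

theorem theta_none (w : List (Option (Fin m))) (hw : w ≠ []) :
    X * d⁄dX ℚ (hy a (none :: w)) = hy a w := by
  ext k
  rw [coeff_theta, coeff_hy, coeff_hy]
  show (k : ℚ) * (co a w k / (k : ℚ)) = co a w k
  rcases Nat.eq_zero_or_pos k with rfl | hk
  · rw [co_zero a w hw]
    simp
  · have : (k : ℚ) ≠ 0 := by positivity
    field_simp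

theorem theta_some (i : Fin m) (w : List (Option (Fin m))) :
    X * d⁄dX ℚ (hy a (some i :: w)) = (X * geo (a i)) * hy a w := by
  ext k
  rw [coeff_theta, coeff_hy]
  show (k : ℚ) * ((∑ l ∈ Finset.range k, (a i : ℚ) ^ (k - 1 - l) * co a w l) / (k : ℚ)) = _
  rcases Nat.eq_zero_or_pos k with rfl | hk
  · simp
  · obtain ⟨n, rfl⟩ : ∃ n, k = n + 1 := ⟨k - 1, by omega⟩
    have : ((n + 1 : ℕ) : ℚ) ≠ 0 := by positivity
    rw [mul_div_cancel₀ _ this, mul_assoc, coeff_succ_X_mul, coeff_mul,
      Finset.Nat.sum_antidiagonal_eq_sum_range_succ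
        (fun i' j => coeff i' (geo (a i)) * coeff j (hy a w)), ← Finset.sum_range_reflect]
    refine Finset.sum_congr rfl fun j hj => ?_
    rw [Finset.mem_range] at hj
    rw [coeff_hy]
    unfold geo
    rw [coeff_mk]
    have e1 : n + 1 - 1 - (n + 1 - 1 - j) = j := by omega
    have e2 : n + 1 - 1 - j = n - j := by omega
    rw [e1, e2]

/-! ### The forms -/

/-- the forms -/
noncomputable def ug : Option (Fin m) → FF
  | none => 1
  | some i => io (X * geo (a i))

theorem geo_pio' (c : ℤ) :
    io (X * geo c) = pio Polynomial.X / pio (1 - Polynomial.C (c : ℚ) * Polynomial.X) := by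
  have h1 : pio (1 - Polynomial.C (c : ℚ) * Polynomial.X) ≠ 0 := by
    intro e
    have h2 := pio_inj (e.trans (map_zero pio).symm)
    have h3 := congrArg (Polynomial.eval 0) h2
    simp at h3
  rw [eq_div_iff h1, pio_apply, pio_apply, ← map_mul, Polynomial.coe_sub, Polynomial.coe_one,
    Polynomial.coe_mul, Polynomial.coe_X, Polynomial.coe_C]
  congr 1
  have h4 := geo_mul c
  have h5 : (C (c : ℚ) : ℚ⟦X⟧) = (c : ℚ⟦X⟧) := by simp
  rw [h5]
  calc X * geo c * (1 - (c : ℚ⟦X⟧) * X) = X * ((1 - (c : ℚ⟦X⟧) * X) * geo c) := by ring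
    _ = X := by rw [h4, mul_one]

theorem eul_hy1 (i : Fin m) : eul (io (hy a [some i])) = io (X * geo (a i)) := by
  rw [eul_io, theta_some, hy_nil, mul_one]

theorem coeff0_mul (c : ℚ) (f : ℚ⟦X⟧) (hf : constantCoeff f = 0) :
    (pio (Polynomial.C c) * io f : FF).coeff 0 = 0 := by
  rw [pio_apply, ← map_mul]
  have h2 := coeff_io (((Polynomial.C c : Polynomial ℚ) : ℚ⟦X⟧) * f) 0
  rw [Nat.cast_zero] at h2
  rw [h2]
  simp only [coeff_zero_eq_constantCoeff, map_mul, hf, mul_zero]

theorem hprim' {N : ℕ} (h : Fin N → ℚ⟦X⟧) (hN : NoLogs a h) (c : Option (Fin m) → FF) (g : FF)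
    (hc : ∀ i, c i ∈ Kh h) (hc0 : ∀ i, eul (c i) = 0) (hg : g ∈ Kh h)
    (he : eul g = ∑ i, c i * ug a i) : ∀ i, c i = 0 := by
  have hcc := fun i => const_eq (c i) (hc0 i)
  rw [Fintype.sum_option] at he
  simp only [ug, mul_one] at he
  -- the coefficient at `0`
  have hf : c none = 0 := by
    have h1 := congrArg (fun x : FF => x.coeff 0) he
    have hsum : (∑ i, c (some i) * io (X * geo (a i)) : FF).coeff 0 = 0 := by
      rw [HahnSeries.coeff_sum]
      refine Finset.sum_eq_zero fun i _ => ?_
      rw [hcc (some i)]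
      exact coeff0_mul _ _ (by simp)
    simp only [coeff_eul, HahnSeries.coeff_add] at h1
    rw [hsum, Int.cast_zero, zero_mul, add_zero] at h1
    rw [hcc none, ← h1]
    simp
  rw [hf, zero_add] at he
  set q : Fin m → ℚ := fun i => (c (some i)).coeff 0 with hq
  have hcq : ∀ i, c (some i) = pio (Polynomial.C (q i)) := fun i => hcc (some i)
  have hq0 : q = 0 := by
    by_contra hne
    have h1 : eul (g - ∑ i, c (some i) * io (hy a [some i])) = 0 := by
      rw [map_sub, map_sum, he, sub_eq_zero]
      refine Finset.sum_congr rfl fun i _ => ?_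
      rw [Derivation.leibniz, smul_eq_mul, smul_eq_mul, hc0 (some i), eul_hy1, mul_zero, add_zero]
    have h2 := const_eq _ h1
    set c₂ : ℚ := (g - ∑ i, c (some i) * io (hy a [some i])).coeff 0 with hc₂
    obtain ⟨R, P, hP, hgP⟩ := (mem_Kh h).1 hg
    have hΛ : ∑ i, c (some i) * io (hy a [some i]) = io (∑ i, C (q i) * hy a [some i]) := by
      rw [map_sum]
      refine Finset.sum_congr rfl fun i _ => ?_
      rw [map_mul, hcq i, pio_apply, Polynomial.coe_C]
    have h3 : g = io (∑ i, C (q i) * hy a [some i]) + pio (Polynomial.C c₂) := by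
      rw [← h2, hΛ]
      ring
    have h4 : E h R = E h P * (io (∑ i, C (q i) * hy a [some i]) + pio (Polynomial.C c₂)) := by
      rw [← h3, hgP]
      field_simp
    have h5 : E h P * io (∑ i, C (q i) * hy a [some i]) =
        E h (R - MvPolynomial.C (Polynomial.C c₂) * P) := by
      rw [map_sub, map_mul, E_C, h4]
      ring
    have h6 : MvPolynomial.aeval h P = 0 := hN q hne P (R - MvPolynomial.C (Polynomial.C c₂) * P) (by
      apply io_inj
      rw [map_mul io]
      exact h5)
    apply hP
    rw [E_apply, h6, map_zero]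
  intro i
  cases i with
  | none => exact hf
  | some i =>
    rw [hcq i, hq0]
    simp

/-! ### The indices -/

section idx

variable {W : ℕ}

open Classical in
/-- the matrices of the system -/
noncomputable def ng (i : Option (Fin m)) (b b' : Wd m W) : ℚ := if b.1 = i :: b'.1 then 1 else 0

theorem ng_deg (i : Option (Fin m)) (b b' : Wd m W) (h : ng i b b' ≠ 0) :
    b.1.length = b'.1.length + 1 := by
  unfold ng at h
  split_ifs at h with h1
  · rw [h1, List.length_cons]
  · exact absurd rfl h

theorem wd_cases (b : Wd m W) : b.1 = [] ∨ ∃ i w, b.1 = i :: w := by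
  rcases h : b.1 with _ | ⟨i, w⟩
  · exact Or.inl rfl
  · exact Or.inr ⟨i, w, rfl⟩

/-- the tail -/
def tw (b : Wd m W) (i : Option (Fin m)) (w : List (Option (Fin m))) (hb : b.1 = i :: w) : Wd m W :=
  ⟨w, by
    have := b.2.1
    rw [hb, List.length_cons] at this
    omega, by
    have := b.2.2
    rw [hb] at this
    rcases w with _ | ⟨j, w'⟩
    · simp
    · rw [List.getLast?_cons_cons] at this
      exact this⟩

theorem ne_nil_of_none (b : Wd m W) (w : List (Option (Fin m))) (hb : b.1 = none :: w) : w ≠ [] := by
  rintro rfl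
  have := b.2.2
  rw [hb] at this
  exact this rfl

theorem eul_hy (b : Wd m W) (i : Option (Fin m)) (w : List (Option (Fin m))) (hb : b.1 = i :: w) :
    eul (io (hy a b.1)) = ug a i * io (hy a w) := by
  rw [eul_io, hb]
  rcases i with _ | i
  · rw [theta_none a w (ne_nil_of_none b w hb)]
    simp only [ug, one_mul]
  · rw [theta_some]
    simp only [ug, map_mul]

theorem hf' (b : Wd m W) : eul (io (hy a b.1)) =
    ∑ b' : Wd m W, (∑ i, (ng i b b' : FF) * ug a i) * io (hy a b'.1) := by
  classical
  rcases wd_cases b with h | ⟨j, w, h⟩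
  · rw [h, hy_nil, map_one, Derivation.map_one_eq_zero]
    symm
    refine Finset.sum_eq_zero fun b' _ => ?_
    rw [Finset.sum_eq_zero, zero_mul]
    intro i _
    have h1 : ng i b b' = 0 := by
      unfold ng
      rw [if_neg (by rw [h]; exact (List.cons_ne_nil _ _).symm)]
    rw [h1]
    simp
  · rw [eul_hy a b j w h, Finset.sum_eq_single (tw b j w h)]
    · rw [Finset.sum_eq_single j]
      · have h1 : ng j b (tw b j w h) = 1 := by
          unfold ng
          rw [if_pos]
          exact h
        rw [h1]
        simp only [Rat.cast_one, one_mul]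
        rfl
      · intro i _ hne
        have h1 : ng i b (tw b j w h) = 0 := by
          unfold ng
          rw [if_neg]
          intro e
          rw [h] at e
          exact hne (List.cons.inj e).1.symm
        rw [h1]
        simp
      · intro hn
        exact absurd (Finset.mem_univ _) hn
    · intro b' _ hne
      rw [Finset.sum_eq_zero, zero_mul]
      intro i _
      have h1 : ng i b b' = 0 := by
        unfold ng
        rw [if_neg]
        intro e
        rw [h] at e
        apply hne
        apply Subtype.ext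
        exact (List.cons.inj e).2.symm
      rw [h1]
      simp
    · intro hn
      exact absurd (Finset.mem_univ _) hn

theorem hnd' (k : ℕ) (l : Wd m W → FF) (hl : ∀ b : Wd m W, b.1.length ≠ k + 1 → l b = 0)
    (hs : ∀ i b', ∑ b, (ng i b b' : FF) * l b = 0) (b : Wd m W) : l b = 0 := by
  classical
  rcases wd_cases b with h | ⟨j, w, h⟩
  · apply hl
    rw [h]
    simp
  · have h1 := hs j (tw b j w h)
    rw [Finset.sum_eq_single b] at h1
    · have h2 : ng j b (tw b j w h) = 1 := by
        unfold ng
        rw [if_pos]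
        exact h
      rw [h2, Rat.cast_one, one_mul] at h1
      exact h1
    · intro b' _ hne
      have h2 : ng j b' (tw b j w h) = 0 := by
        unfold ng
        rw [if_neg]
        intro h3
        apply hne
        apply Subtype.ext
        rw [h3, h]
        rfl
      rw [h2, Rat.cast_zero, zero_mul]
    · intro hn
      exact absurd (Finset.mem_univ _) hn

end idx

theorem p_INDH : S_INDH := by
  classical
  intro m a N h T A hT hA hN σ _ F hF W
  rw [Fintype.linearIndependent_iff] at hF ⊢
  intro q hq
  -- the coefficients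
  set g : Wd m W → FF := fun s => ∑ β, E h (MvPolynomial.C (q (β, s)) * F β) with hg
  have hg0 : ∀ s, g s = 0 := by
    refine graded_indep (eul : Derivation ℚ FF FF) (Kh h) (eul_Kh h hT hA) (ug a) ?_
      (fun c g hc hc0 hg he => hprim' a h hN c g hc hc0 hg he) (fun b : Wd m W => b.1.length)
      (fun b => io (hy a b.1)) ng ng_deg (hf' a) ?_ (fun k l _ _ hl hs => hnd' k l hl hs) g ?_ ?_
    · intro i
      rcases i with _ | i
      · exact one_mem _
      · show io (X * geo (a i)) ∈ Kh h
        rw [geo_pio']
        exact div_mem (pio_mem' h _) (pio_mem' h _)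
    · intro g hg hgd hs b
      by_cases hb : b.1.length ≠ 0
      · exact hgd b hb
      · push Not at hb
        have hnil : ∀ b : Wd m W, b.1.length = 0 → b.1 = [] := fun b hb =>
          List.length_eq_zero_iff.1 hb
        rw [Finset.sum_eq_single b] at hs
        · rw [hnil b hb, hy_nil, map_one, mul_one] at hs
          exact hs
        · intro b' _ hne
          rw [hgd b', zero_mul]
          intro hb'
          exact hne (Subtype.ext ((hnil b' hb').trans (hnil b hb).symm))
        · intro hn
          exact absurd (Finset.mem_univ _) hn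
    · intro s
      exact sum_mem fun β _ => E_mem h _
    · have h1 := congrArg io hq
      rw [map_zero, map_sum, Fintype.sum_prod_type_right] at h1
      rw [← h1]
      refine Finset.sum_congr rfl fun s _ => ?_
      rw [hg, Finset.sum_mul]
      refine Finset.sum_congr rfl fun β _ => ?_
      rw [E_apply, map_mul, MvPolynomial.aeval_C, ← map_mul, Algebra.smul_def]
      congr 1
      ring
  rintro ⟨β, s⟩
  refine hF (fun β => q (β, s)) ?_ β
  apply io_inj
  rw [map_zero, ← hg0 s, hg, map_sum]
  refine Finset.sum_congr rfl fun β _ => ?_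
  rw [E_apply, map_mul, MvPolynomial.aeval_C, Algebra.smul_def]

end Pool.Agent.Run7.h379.CP
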